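import Mathlib

/-!
# Setwise versus total variation convergence of shifted processes (MP_a1f67d_pr, Q1)

Setwise convergence does not imply total variation convergence.
-/

open MeasureTheory Set Filter Topology ProbabilityTheory

namespace Pool.Agent.Results.MP_a1f67d_pr.SetwiseNotTV

/-- Setwise convergence (S) of the laws of the shifted processes `θ_n X` to the law of `X'`. -/
def Setwise {E Ω Ω' : Type} [MeasurableSpace E] [MeasurableSpace Ω] [MeasurableSpace Ω']
    (P : Measure Ω) (X : ℕ → Ω → E) (P' : Measure Ω') (X' : ℕ → Ω' → E) : Prop :=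
  ∀ A : Set (ℕ → E), MeasurableSet A →
    Tendsto (fun n : ℕ => P.real {ω | (fun k => X (n + k) ω) ∈ A}) atTop
      (𝓝 (P'.real {ω | (fun k => X' k ω) ∈ A}))

/-- Total variation convergence (TV). -/
def TotalVariation {E Ω Ω' : Type} [MeasurableSpace E] [MeasurableSpace Ω] [MeasurableSpace Ω']
    (P : Measure Ω) (X : ℕ → Ω → E) (P' : Measure Ω') (X' : ℕ → Ω' → E) : Prop :=
  Tendsto (fun n : ℕ => ⨆ A : {A : Set (ℕ → E) // MeasurableSet A},
    |P.real {ω | (fun k => X (n + k) ω) ∈ A.1} - P'.real {ω | (fun k => X' k ω) ∈ A.1}|)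
    atTop (𝓝 0)

/-- the fair coin -/
noncomputable def coin : Measure Bool := (PMF.uniformOfFintype Bool).toMeasure

instance : IsProbabilityMeasure coin := by unfold coin; infer_instance

/-- two-sided sequences of bits -/
abbrev Seq := ℤ → Bool

/-- the law of the two-sided sequence of fair coins -/
noncomputable def law : Measure Seq := Measure.infinitePi (fun _ => coin)

instance : IsProbabilityMeasure law := by unfold law; infer_instance

/-- the shift by `n` -/
def S (n : ℕ) (ω : Seq) : Seq := fun i => ω (i + n)

lemma measurable_S (n : ℕ) : Measurable (S n) := by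
  unfold S
  fun_prop

/-- the event that the bit at the origin is `true` -/
def B : Set Seq := {ω | ω 0 = true}

lemma measurableSet_B : MeasurableSet B := by
  have : Measurable (fun ω : Seq => ω 0) := measurable_pi_apply 0
  exact this (measurableSet_singleton true)

lemma coin_true : coin {true} = 1 / 2 := by
  unfold coin
  rw [PMF.toMeasure_apply_singleton _ _ (measurableSet_singleton _)]
  simp

lemma law_coord (i : ℤ) : law {ω : Seq | ω i = true} = 1 / 2 := by
  have h : {ω : Seq | ω i = true} = (({i} : Finset ℤ) : Set ℤ).pi (fun _ => {true}) := by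
    ext ω
    simp
  rw [h, law, Measure.infinitePi_pi]
  · simp [coin_true]
  · intro j _
    exact measurableSet_singleton _

/-- boxes are shifted to boxes -/
lemma box_inter (I : Finset ℤ) (t : ℤ → Set Bool) (ht : ∀ i, MeasurableSet (t i)) (n : ℕ)
    (hn : ∀ i ∈ I, i + n ≠ 0) :
    law (S n ⁻¹' ((I : Set ℤ).pi t) ∩ B) = law ((I : Set ℤ).pi t) * law B := by
  classical
  set J : Finset ℤ := I.image (fun i => i + n) with hJ
  have h0 : (0 : ℤ) ∉ J := by
    rw [hJ, Finset.mem_image]
    rintro ⟨i, hi, h⟩
    exact hn i hi h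
  set u : ℤ → Set Bool := fun j => if j = 0 then {true} else t (j - n) with hu
  have hset : S n ⁻¹' ((I : Set ℤ).pi t) ∩ B = ((insert 0 J : Finset ℤ) : Set ℤ).pi u := by
    ext ω
    simp only [mem_inter_iff, mem_preimage, Set.mem_pi, Finset.mem_coe, B, mem_ofPred_eq, S,
      Finset.mem_insert, hJ, Finset.mem_image, hu]
    constructor
    · rintro ⟨h1, h2⟩ j (rfl | ⟨i, hi, rfl⟩)
      · simpa using h2
      · rw [if_neg (hn i hi), add_sub_cancel_right]
        exact h1 i hi
    · intro h
      refine ⟨fun i hi => ?_, ?_⟩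
      · have := h (i + n) (Or.inr ⟨i, hi, rfl⟩)
        rwa [if_neg (hn i hi), add_sub_cancel_right] at this
      · simpa using h 0 (Or.inl rfl)
  have hu' : ∀ j, MeasurableSet (u j) := by
    intro j
    rw [hu]
    simp only
    split_ifs
    · exact measurableSet_singleton _
    · exact ht _
  have hB : law B = 1 / 2 := law_coord 0
  rw [hset, hB, law, Measure.infinitePi_pi _ (fun i _ => hu' i),
    Measure.infinitePi_pi _ (fun i _ => ht i), Finset.prod_insert h0]
  have e1 : coin (u 0) = 1 / 2 := by
    rw [hu]
    simp only [if_true]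
    exact coin_true
  have e2 : ∏ j ∈ J, coin (u j) = ∏ i ∈ I, coin (t i) := by
    rw [hJ, Finset.prod_image]
    · apply Finset.prod_congr rfl
      intro i hi
      rw [hu]
      simp only
      rw [if_neg (hn i hi), add_sub_cancel_right]
    · intro a _ b _ hab
      simpa using hab
  rw [e1, e2, mul_comm]

lemma S_preserves (n : ℕ) : law.map (S n) = law := by
  classical
  unfold law
  apply Measure.eq_infinitePi
  intro I t ht
  rw [Measure.map_apply (measurable_S n) (MeasurableSet.pi I.countable_toSet fun i _ => ht i)]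
  set J : Finset ℤ := I.image (fun i => i + n) with hJ
  have hset : S n ⁻¹' ((I : Set ℤ).pi t) = (J : Set ℤ).pi (fun j => t (j - n)) := by
    ext ω
    simp only [mem_preimage, Set.mem_pi, Finset.mem_coe, S, hJ, Finset.mem_image]
    constructor
    · rintro h j ⟨i, hi, rfl⟩
      rw [add_sub_cancel_right]
      exact h i hi
    · intro h i hi
      have := h (i + n) ⟨i, hi, rfl⟩
      rwa [add_sub_cancel_right] at this
  rw [hset, Measure.infinitePi_pi _ (fun i _ => ht _), hJ, Finset.prod_image]
  · apply Finset.prod_congr rfl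
    intro i _
    rw [add_sub_cancel_right]
  · intro a _ b _ hab
    simpa using hab

lemma hasSum_real {Ω : Type} [MeasurableSpace Ω] (μ : Measure Ω) [IsFiniteMeasure μ]
    {f : ℕ → Set Ω} (hd : Pairwise (Function.onFun Disjoint f)) (hf : ∀ i, MeasurableSet (f i)) :
    HasSum (fun i => μ.real (f i)) (μ.real (⋃ i, f i)) := by
  have h1 : ∑' i, μ (f i) = μ (⋃ i, f i) := (measure_iUnion hd hf).symm
  have hne : ∑' i, μ (f i) ≠ ⊤ := by
    rw [h1]
    exact measure_ne_top _ _
  have h2 := ENNReal.hasSum_toReal hne
  rw [← ENNReal.tsum_toReal_eq (fun i => measure_ne_top _ _), h1] at h2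
  exact h2

lemma cond_real {A B : Set Seq} (hB : MeasurableSet B) :
    (law[|B]).real A = (law.real B)⁻¹ * law.real (B ∩ A) := by
  simp only [Measure.real]
  rw [cond_apply hB, ENNReal.toReal_mul, ENNReal.toReal_inv]

/-- **Mixing.** -/
lemma mixing {A : Set Seq} (hA : MeasurableSet A) :
    Tendsto (fun n : ℕ => law.real (S n ⁻¹' A ∩ B)) atTop (𝓝 (law.real A * law.real B)) := by
  induction A, hA using MeasurableSpace.induction_on_inter
    (generateFrom_squareCylinders (α := fun _ : ℤ => Bool)).symm
    (isPiSystem_squareCylinders (fun _ => MeasurableSpace.isPiSystem_measurableSet) (by simp)) with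
  | empty => simp
  | basic A hA =>
    obtain ⟨I, t, ht, rfl⟩ := hA
    have ht' : ∀ i, MeasurableSet (t i) := fun i => ht i (mem_univ i)
    apply tendsto_const_nhds.congr'
    obtain ⟨N, hN⟩ : ∃ N : ℕ, ∀ i ∈ I, |i| < N := by
      refine ⟨∑ i ∈ I, (|i|.toNat + 1), fun i hi => ?_⟩
      have h1 : |i|.toNat + 1 ≤ ∑ i ∈ I, (|i|.toNat + 1) :=
        Finset.single_le_sum (f := fun i : ℤ => |i|.toNat + 1) (fun _ _ => Nat.zero_le _) hi
      have h2 : (|i|.toNat : ℤ) = |i| := Int.toNat_of_nonneg (abs_nonneg i)
      omega
    filter_upwards [eventually_ge_atTop N] with n hn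
    have hne : ∀ i ∈ I, i + n ≠ 0 := by
      intro i hi h
      have h1 := hN i hi
      have h2 := neg_abs_le i
      omega
    have := box_inter I t ht' n hne
    simp only [Measure.real]
    rw [this, ENNReal.toReal_mul]
  | compl A hA ih =>
    have h1 : ∀ n : ℕ, law.real (S n ⁻¹' Aᶜ ∩ B) = law.real B - law.real (S n ⁻¹' A ∩ B) := by
      intro n
      have h2 := measureReal_inter_add_sdiff (μ := law) (s := B) (measurable_S n hA)
      have h3 : B ∩ S n ⁻¹' A = S n ⁻¹' A ∩ B := inter_comm _ _
      have h4 : B \ S n ⁻¹' A = S n ⁻¹' Aᶜ ∩ B := by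
        ext ω
        simp only [Set.mem_sdiff, mem_preimage, mem_inter_iff, mem_compl_iff]
        tauto
      rw [h3, h4] at h2
      linarith
    simp only [h1]
    have h5 : law.real Aᶜ * law.real B = law.real B - law.real A * law.real B := by
      rw [probReal_compl_eq_one_sub hA]
      ring
    rw [h5]
    exact ih.const_sub _
  | iUnion f hd hf ih =>
    have h1 : ∀ n : ℕ, law.real (S n ⁻¹' (⋃ i, f i) ∩ B) = ∑' i, law.real (S n ⁻¹' (f i) ∩ B) := by
      intro n
      rw [preimage_iUnion, iUnion_inter]
      refine (hasSum_real law ?_ fun i => (measurable_S n (hf i)).inter measurableSet_B).tsum_eq.symm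
      intro i j hij
      exact ((hd hij).preimage (S n)).mono inter_subset_left inter_subset_left
    have h2 : law.real (⋃ i, f i) * law.real B = ∑' i, law.real (f i) * law.real B := by
      rw [tsum_mul_right, (hasSum_real law hd hf).tsum_eq]
    simp only [h1]
    rw [h2]
    refine tendsto_tsum_of_dominated_convergence (bound := fun i => law.real (f i))
      (hasSum_real law hd hf).summable (fun i => ih i) ?_
    refine Eventually.of_forall fun n i => ?_
    rw [Real.norm_of_nonneg measureReal_nonneg]
    calc law.real (S n ⁻¹' (f i) ∩ B) ≤ law.real (S n ⁻¹' (f i)) :=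
          measureReal_mono inter_subset_left
      _ = law.real (f i) := by
        simp only [Measure.real]
        rw [← Measure.map_apply (measurable_S n) (hf i), S_preserves]

/-- **Main theorem.** Setwise convergence of the laws of `θ_n X` does not imply convergence in
total variation. -/
theorem result : ¬ ∀ (E Ω Ω' : Type) [MeasurableSpace E] [MeasurableSpace Ω] [MeasurableSpace Ω']
    (P : Measure Ω) [IsProbabilityMeasure P] (P' : Measure Ω') [IsProbabilityMeasure P']
    (X : ℕ → Ω → E) (X' : ℕ → Ω' → E), (∀ k, Measurable (X k)) → (∀ k, Measurable (X' k)) →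
    Setwise P X P' X' → TotalVariation P X P' X' := by
  intro hall
  have hB : law B = 1 / 2 := law_coord 0
  have hB0 : law B ≠ 0 := by rw [hB]; norm_num
  have hBr : law.real B = 1 / 2 := by
    simp only [Measure.real]
    rw [hB]
    norm_num
  have : IsProbabilityMeasure (law[|B]) := cond_isProbabilityMeasure hB0
  have hS : Setwise (law[|B]) S law S := by
    intro A hA
    have hmeas : Measurable (fun ω : Seq => fun k : ℕ => S k ω) :=
      measurable_pi_lambda _ fun k => measurable_S k
    set A' : Set Seq := {ω | (fun k : ℕ => S k ω) ∈ A} with hA'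
    have hA'm : MeasurableSet A' := hmeas hA
    have h1 : ∀ n : ℕ, (law[|B]).real {ω | (fun k : ℕ => S (n + k) ω) ∈ A} =
        2 * law.real (S n ⁻¹' A' ∩ B) := by
      intro n
      have hset : {ω | (fun k : ℕ => S (n + k) ω) ∈ A} = S n ⁻¹' A' := by
        ext ω
        simp only [hA', mem_ofPred_eq, mem_preimage]
        have : (fun k : ℕ => S (n + k) ω) = fun k : ℕ => S k (S n ω) := by
          funext k i
          simp only [S]
          congr 1
          push_cast
          ring
        rw [this]
      rw [hset, cond_real measurableSet_B, hBr, inter_comm]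
      norm_num
    simp only [h1]
    have h2 := (mixing hA'm).const_mul 2
    rw [hBr] at h2
    have h3 : 2 * (law.real A' * (1 / 2)) = law.real A' := by ring
    rw [h3] at h2
    exact h2
  have hTV := hall Seq Seq Seq (law[|B]) law S S measurable_S measurable_S hS
  have hlow : ∀ n : ℕ, (1 / 2 : ℝ) ≤ ⨆ A : {A : Set (ℕ → Seq) // MeasurableSet A},
      |(law[|B]).real {ω | (fun k => S (n + k) ω) ∈ A.1} -
        law.real {ω | (fun k => S k ω) ∈ A.1}| := by
    intro n
    have hm : MeasurableSet {x : ℕ → Seq | x 0 (-(n : ℤ)) = true} := by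
      have : Measurable (fun x : ℕ → Seq => x 0 (-(n : ℤ))) := by fun_prop
      exact this (measurableSet_singleton true)
    have hbdd : BddAbove (range fun A : {A : Set (ℕ → Seq) // MeasurableSet A} =>
        |(law[|B]).real {ω | (fun k => S (n + k) ω) ∈ A.1} -
          law.real {ω | (fun k => S k ω) ∈ A.1}|) := by
      refine ⟨1, ?_⟩
      rintro _ ⟨A, rfl⟩
      simp only
      rw [abs_le]
      have h1 := measureReal_nonneg (μ := law[|B]) (s := {ω | (fun k => S (n + k) ω) ∈ A.1})
      have h2 := measureReal_nonneg (μ := law) (s := {ω | (fun k => S k ω) ∈ A.1})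
      have h3 := prob_le_one (μ := law[|B]) (s := {ω | (fun k => S (n + k) ω) ∈ A.1})
      have h4 : (law[|B]).real {ω | (fun k => S (n + k) ω) ∈ A.1} ≤ 1 := measureReal_le_one
      have h5 : law.real {ω | (fun k => S k ω) ∈ A.1} ≤ 1 := measureReal_le_one
      constructor <;> linarith
    refine le_trans ?_ (le_ciSup hbdd ⟨_, hm⟩)
    simp only [mem_ofPred_eq]
    have e1 : {ω : Seq | S (n + 0) ω (-(n : ℤ)) = true} = B := by
      ext ω
      simp [S, B]
    have e2 : {ω : Seq | S 0 ω (-(n : ℤ)) = true} = {ω : Seq | ω (-(n : ℤ)) = true} := by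
      ext ω
      simp [S]
    have e3 : law.real {ω : Seq | ω (-(n : ℤ)) = true} = 1 / 2 := by
      simp only [Measure.real]
      rw [law_coord]
      norm_num
    have e4 : (law[|B]).real B = 1 := by
      rw [cond_real measurableSet_B, inter_self, hBr]
      norm_num
    rw [e1, e2, e3, e4]
    norm_num
  have := ge_of_tendsto' hTV hlow
  norm_num at this

end Pool.Agent.Results.MP_a1f67d_pr.SetwiseNotTV
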